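import Pool.Agent.H98.CAFinal

/-!
# Rotation numbers of closed centroaffine extremal curves

The definitions are in `Pool/Agent/H98/CADefs.lean`; the proof is in `Pool/Agent/H98/CA*.lean`.
-/

namespace Pool.Agent.Results.MP_1d3344_gt.RotationNumbers

open Pool.Agent.H98.CA Set Real Filter Topology

/-- Let `c = cpar a = (2a-1)/(a-1)`.  For every `a ≠ 0`, `n` is the rotation number of a nontrivial
extremal curve of `𝓑_a` iff `a ∉ [1/2,1]`, `n ≥ 1` and some integer lies strictly between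
`n √(2c)` and `n min(2,2c)`.  The least rotation number `m(a)` is `∞` exactly for `a ∈ [1/2,1]` and
`a = 1/3`; it is `⌊(a-1) + √((a-1)² + (a-1)/2)⌋ + 1` for `a > 1` and
`⌊(1-a) + √((1-a)² - (1-a)/2)⌋ + 1` for `a < 0`; in particular `m(a) → ∞` as `a → +∞`. -/
theorem result :
    (∀ a : ℝ, a ≠ 0 → ∀ n : ℕ, IsNontrivialRotation a n ↔
      a ∉ Icc (1 / 2 : ℝ) 1 ∧ 1 ≤ n ∧ ∃ k : ℕ, (k : ℝ) ∈
        Ioo (min (n * √(2 * cpar a)) (n * min 2 (2 * cpar a)))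
          (max (n * √(2 * cpar a)) (n * min 2 (2 * cpar a)))) ∧
    (∀ a : ℝ, a ≠ 0 → (minRotation a = ⊤ ↔ a ∈ Icc (1 / 2 : ℝ) 1 ∨ a = 1 / 3)) ∧
    (∀ a : ℝ, 1 < a → minRotation a =
      ((⌊(a - 1) + √((a - 1) ^ 2 + (a - 1) / 2)⌋₊ + 1 : ℕ) : ℕ∞)) ∧
    (∀ a : ℝ, a < 0 → minRotation a =
      ((⌊(1 - a) + √((1 - a) ^ 2 - (1 - a) / 2)⌋₊ + 1 : ℕ) : ℕ∞)) ∧
    Tendsto minRotation atTop (𝓝 ⊤) :=
  ⟨fun _ ha n => rotation_iff ha n, fun _ ha => minRotation_eq_top ha,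
    fun _ ha => minRotation_of_gt ha, fun _ ha => minRotation_of_neg ha, tendsto_minRotation⟩

end Pool.Agent.Results.MP_1d3344_gt.RotationNumbers
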